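import Pool.Agent.helper17.PR.SpecN

/-!
# Project pr: module N_UNI: the lower central series of a group of operators with one eigenvalue
-/

set_option autoImplicit false

namespace Pool.Agent.PR

open Module
open scoped commutatorElement

section

variable {K V Q : Type} [Field K] [AddCommGroup V] [Module K V] [Group Q]

theorem N_UNI_pow (ρ : Q →* Module.End K V) (W : Submodule K V) (hW : InvS ρ W) (g : Q) (a c : K)
    (v : V) (h : ρ g v - c • v ∈ W) (N : ℕ) :
    ((ρ g - a • (1 : Module.End K V)) ^ N) v - (c - a) ^ N • v ∈ W := by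
  induction N with
  | zero => simp
  | succ N ih =>
    have hT : ∀ w ∈ W, (ρ g - a • (1 : Module.End K V)) w ∈ W := by
      intro w hw
      have h1 : (ρ g - a • (1 : Module.End K V)) w = ρ g w - a • w := rfl
      rw [h1]
      exact W.sub_mem (hW g w hw) (W.smul_mem a hw)
    have h2 := hT _ ih
    have h3 : ((ρ g - a • (1 : Module.End K V)) ^ (N + 1)) v - (c - a) ^ (N + 1) • v =
        (ρ g - a • (1 : Module.End K V))
          (((ρ g - a • (1 : Module.End K V)) ^ N) v - (c - a) ^ N • v) +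
          (c - a) ^ N • (ρ g v - c • v) := by
      rw [map_sub, map_smul, pow_succ', Module.End.mul_apply]
      have h4 : (ρ g - a • (1 : Module.End K V)) v = ρ g v - a • v := rfl
      rw [h4, smul_sub, smul_sub, smul_smul, smul_smul, pow_succ, mul_sub, sub_smul]
      abel
    rw [h3]
    exact W.add_mem h2 (W.smul_mem _ h)

theorem N_UNI_eig (ρ : Q →* Module.End K V) (hT : TriS ρ) (χ : Q → K)
    (hχ : ∀ g, IsNilpotent (ρ g - χ g • (1 : Module.End K V))) (W U : Submodule K V)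
    (hW : InvS ρ W) (hU : InvS ρ U) (h : W < U) :
    ∃ v ∈ U, v ∉ W ∧ ∀ g : Q, ρ g v - χ g • v ∈ W := by
  obtain ⟨v, hvU, hvW, hv⟩ := hT W U hW hU h
  refine ⟨v, hvU, hvW, fun g => ?_⟩
  obtain ⟨c, hc⟩ := hv g
  obtain ⟨N, hN⟩ := hχ g
  have h1 := N_UNI_pow ρ W hW g (χ g) c v hc N
  rw [hN, LinearMap.zero_apply, zero_sub, W.neg_mem_iff] at h1
  by_cases h2 : (c - χ g) ^ N = 0
  · have h3 : c - χ g = 0 := by
      by_contra h4
      exact pow_ne_zero N h4 h2
    rw [sub_eq_zero.1 h3] at hc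
    exact hc
  · exact absurd ((W.smul_mem_iff h2).1 h1) hvW

/-- the filtration -/
def N_UNI_A (ρ : Q →* Module.End K V) (χ : Q → K) : ℕ → Submodule K V
  | 0 => ⊤
  | i + 1 => Submodule.span K {x | ∃ g : Q, ∃ w ∈ N_UNI_A ρ χ i, x = ρ g w - χ g • w}

theorem N_UNI_mem (ρ : Q →* Module.End K V) (χ : Q → K) (i : ℕ) (g : Q) (w : V)
    (hw : w ∈ N_UNI_A ρ χ i) : ρ g w - χ g • w ∈ N_UNI_A ρ χ (i + 1) :=
  Submodule.subset_span ⟨g, w, hw, rfl⟩

theorem N_UNI_inv (ρ : Q →* Module.End K V) (χ : Q → K) (hc : ∀ g h, χ (h * g * h⁻¹) = χ g)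
    (i : ℕ) : InvS ρ (N_UNI_A ρ χ i) := by
  induction i with
  | zero => exact fun g w _ => Submodule.mem_top
  | succ i ih =>
    intro h x hx
    have h1 : N_UNI_A ρ χ (i + 1) ≤ (N_UNI_A ρ χ (i + 1)).comap (ρ h) := by
      refine Submodule.span_le.2 ?_
      rintro x ⟨g, w, hw, rfl⟩
      show ρ h (ρ g w - χ g • w) ∈ N_UNI_A ρ χ (i + 1)
      have h2 : ρ h (ρ g w - χ g • w) =
          ρ (h * g * h⁻¹) (ρ h w) - χ (h * g * h⁻¹) • ρ h w := by
        rw [hc, map_sub, map_smul]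
        have h3 : ρ (h * g * h⁻¹) (ρ h w) = ρ h (ρ g w) := by
          rw [← Module.End.mul_apply, ← map_mul, ← Module.End.mul_apply, ← map_mul]
          congr 2
          group
        rw [h3]
      rw [h2]
      exact N_UNI_mem ρ χ i _ _ (ih h w hw)
    exact h1 hx

theorem N_UNI_le (ρ : Q →* Module.End K V) (χ : Q → K) (hc : ∀ g h, χ (h * g * h⁻¹) = χ g)
    (i : ℕ) : N_UNI_A ρ χ (i + 1) ≤ N_UNI_A ρ χ i := by
  refine Submodule.span_le.2 ?_
  rintro x ⟨g, w, hw, rfl⟩
  exact Submodule.sub_mem _ (N_UNI_inv ρ χ hc i g w hw) (Submodule.smul_mem _ _ hw)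

theorem N_UNI_lt [FiniteDimensional K V] (ρ : Q →* Module.End K V) (hT : TriS ρ) (χ : Q → K)
    (hχ : ∀ g, IsNilpotent (ρ g - χ g • (1 : Module.End K V)))
    (hc : ∀ g h, χ (h * g * h⁻¹) = χ g) (i : ℕ) (hi : N_UNI_A ρ χ i ≠ ⊥) :
    N_UNI_A ρ χ (i + 1) < N_UNI_A ρ χ i := by
  obtain ⟨W, ⟨hW, hWA⟩, hmax⟩ := WellFounded.has_min
    (wellFounded_gt : WellFounded ((· > ·) : Submodule K V → Submodule K V → Prop))
    {W : Submodule K V | InvS ρ W ∧ W < N_UNI_A ρ χ i}
    ⟨⊥, by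
      intro g w hw
      rw [Submodule.mem_bot] at hw ⊢
      rw [hw, map_zero], bot_lt_iff_ne_bot.2 hi⟩
  obtain ⟨v, hvA, hvW, hv⟩ := N_UNI_eig ρ hT χ hχ W _ hW (N_UNI_inv ρ χ hc i) hWA
  have hW' : InvS ρ (W ⊔ Submodule.span K {v}) := by
    intro g w hw
    rw [Submodule.mem_sup] at hw ⊢
    obtain ⟨y, hy, z, hz, rfl⟩ := hw
    obtain ⟨c, rfl⟩ := Submodule.mem_span_singleton.1 hz
    refine ⟨ρ g y + c • (ρ g v - χ g • v), W.add_mem (hW g y hy) (W.smul_mem c (hv g)),
      (c * χ g) • v, Submodule.smul_mem _ _ (Submodule.mem_span_singleton_self v), ?_⟩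
    rw [map_add, map_smul, smul_sub, smul_smul]
    abel
  have h1 : W < W ⊔ Submodule.span K {v} := by
    refine lt_of_le_of_ne le_sup_left fun h => hvW ?_
    rw [h]
    exact (le_sup_right : Submodule.span K {v} ≤ _) (Submodule.mem_span_singleton_self v)
  have h2 : W ⊔ Submodule.span K {v} = N_UNI_A ρ χ i := by
    have h3 : W ⊔ Submodule.span K {v} ≤ N_UNI_A ρ χ i :=
      sup_le hWA.le ((Submodule.span_singleton_le_iff_mem _ _).2 hvA)
    rcases h3.lt_or_eq with h4 | h4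
    · exact absurd h1 (hmax _ ⟨hW', h4⟩)
    · exact h4
  refine lt_of_le_of_lt ?_ hWA
  refine Submodule.span_le.2 ?_
  rintro x ⟨g, w, hw, rfl⟩
  rw [← h2, Submodule.mem_sup] at hw
  obtain ⟨y, hy, z, hz, rfl⟩ := hw
  obtain ⟨c, rfl⟩ := Submodule.mem_span_singleton.1 hz
  have h5 : ρ g (y + c • v) - χ g • (y + c • v) =
      (ρ g y - χ g • y) + c • (ρ g v - χ g • v) := by
    rw [map_add, map_smul, smul_add, smul_sub, smul_comm (χ g) c v]
    abel
  rw [h5]
  exact W.add_mem (W.sub_mem (hW g y hy) (W.smul_mem _ hy)) (W.smul_mem _ (hv g))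

theorem N_UNI_dim [FiniteDimensional K V] (ρ : Q →* Module.End K V) (hT : TriS ρ) (χ : Q → K)
    (hχ : ∀ g, IsNilpotent (ρ g - χ g • (1 : Module.End K V)))
    (hc : ∀ g h, χ (h * g * h⁻¹) = χ g) (i : ℕ) :
    finrank K (N_UNI_A ρ χ i) ≤ finrank K V - i := by
  induction i with
  | zero =>
    rw [Nat.sub_zero]
    exact Submodule.finrank_le _
  | succ i ih =>
    by_cases h : N_UNI_A ρ χ i = ⊥
    · have h1 : N_UNI_A ρ χ (i + 1) = ⊥ := by
        rw [eq_bot_iff, ← h]
        exact N_UNI_le ρ χ hc i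
      rw [h1, finrank_bot]
      exact Nat.zero_le _
    · have h1 := Submodule.finrank_lt_finrank_of_lt (N_UNI_lt ρ hT χ hχ hc i h)
      omega

theorem N_UNI_lcs (ρ : Q →* Module.End K V) (χ : Q → K) (hm : ∀ g h, χ (g * h) = χ g * χ h)
    (h0 : ∀ g, χ g ≠ 0) (h1 : χ 1 = 1) (hc : ∀ g h, χ (h * g * h⁻¹) = χ g) (k : ℕ) :
    ∀ t ∈ (⊤ : Subgroup Q).lowerCentralSeries k, (1 ≤ k → χ t = 1) ∧
      ∀ i, ∀ w ∈ N_UNI_A ρ χ i, ρ t w - χ t • w ∈ N_UNI_A ρ χ (i + k + 1) := by
  have hinv : ∀ g, χ g⁻¹ = (χ g)⁻¹ := by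
    intro g
    have h2 := hm g g⁻¹
    rw [mul_inv_cancel, h1] at h2
    exact eq_inv_of_mul_eq_one_right h2.symm
  induction k with
  | zero =>
    intro t _
    exact ⟨fun h => absurd h (by omega), fun i w hw => N_UNI_mem ρ χ i t w hw⟩
  | succ k ih =>
    intro t ht
    rw [Subgroup.mem_lowerCentralSeries_succ_iff] at ht
    have key : χ t = 1 ∧ ∀ i, ∀ w ∈ N_UNI_A ρ χ i,
        ρ t w - χ t • w ∈ N_UNI_A ρ χ (i + (k + 1) + 1) := by
      induction ht using Subgroup.closure_induction with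
      | mem x hx =>
        obtain ⟨p, hp, q, -, rfl⟩ := hx
        have hx1 : χ ⁅p, q⁆ = 1 := by
          rw [commutatorElement_def, hm, hinv]
          have h3 := hc q p
          rw [h3]
          exact mul_inv_cancel₀ (h0 _)
        refine ⟨hx1, fun i w hw => ?_⟩
        obtain ⟨u, hu, hwu⟩ : ∃ u ∈ N_UNI_A ρ χ i, w = ρ q (ρ p u) := by
          refine ⟨ρ (q * p)⁻¹ w, N_UNI_inv ρ χ hc i _ _ hw, ?_⟩
          rw [← Module.End.mul_apply, ← map_mul, ← Module.End.mul_apply, ← map_mul]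
          have h3 : q * p * (q * p)⁻¹ = 1 := by group
          rw [h3, map_one]
          rfl
        have h4 : ρ ⁅p, q⁆ w = ρ p (ρ q u) := by
          rw [hwu, ← Module.End.mul_apply, ← map_mul, ← Module.End.mul_apply, ← map_mul,
            ← Module.End.mul_apply, ← map_mul]
          congr 2
          rw [commutatorElement_def]
          group
        have h5 : ρ ⁅p, q⁆ w - χ ⁅p, q⁆ • w =
            (ρ p (ρ q u - χ q • u) - χ p • (ρ q u - χ q • u)) -
              (ρ q (ρ p u - χ p • u) - χ q • (ρ p u - χ p • u)) := by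
          rw [h4, hx1, one_smul, hwu]
          simp only [map_sub, map_smul, smul_sub]
          rw [smul_comm (χ p) (χ q) u]
          abel
        rw [h5]
        refine Submodule.sub_mem _ ?_ ?_
        · have h6 := (ih p hp).2 (i + 1) _ (N_UNI_mem ρ χ i q u hu)
          have h7 : i + 1 + k + 1 = i + (k + 1) + 1 := by ring
          rw [h7] at h6
          exact h6
        · have h6 := N_UNI_mem ρ χ (i + k + 1) q _ ((ih p hp).2 i u hu)
          exact h6
      | one =>
        refine ⟨h1, fun i w _ => ?_⟩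
        rw [h1, one_smul, map_one, Module.End.one_apply, sub_self]
        exact Submodule.zero_mem _
      | mul x y _ _ hx hy =>
        refine ⟨by rw [hm, hx.1, hy.1, mul_one], fun i w hw => ?_⟩
        have h3 : ρ (x * y) w - χ (x * y) • w =
            ρ x (ρ y w - χ y • w) + χ y • (ρ x w - χ x • w) := by
          rw [hm, map_mul, Module.End.mul_apply, map_sub, map_smul, smul_sub, smul_smul,
            mul_comm (χ y) (χ x)]
          abel
        rw [h3]
        exact Submodule.add_mem _ (N_UNI_inv ρ χ hc _ _ _ (hy.2 i w hw))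
          (Submodule.smul_mem _ _ (hx.2 i w hw))
      | inv x _ hx =>
        refine ⟨by rw [hinv, hx.1, inv_one], fun i w hw => ?_⟩
        have h3 : ρ x⁻¹ w - χ x⁻¹ • w = -((χ x)⁻¹ • ρ x⁻¹ (ρ x w - χ x • w)) := by
          have h4 : ρ x⁻¹ (ρ x w) = w := by
            rw [← Module.End.mul_apply, ← map_mul, inv_mul_cancel, map_one]
            rfl
          rw [map_sub, map_smul, h4, smul_sub, smul_smul, inv_mul_cancel₀ (h0 x), one_smul,
            hinv]
          abel
        rw [h3]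
        exact Submodule.neg_mem _ (Submodule.smul_mem _ _
          (N_UNI_inv ρ χ hc _ _ _ (hx.2 i w hw)))
    exact ⟨fun _ => key.1, key.2⟩

end

theorem N_UNI : N_UNI_stmt := by
  intro K V _ _ _ _ Q _ ρ hT hn k hk t ht
  rcases subsingleton_or_nontrivial V with hV | hV
  · have h1 : finrank K (LinearMap.range (ρ t - 1)) ≤ finrank K V := Submodule.finrank_le _
    have h2 : finrank K V = 0 := finrank_zero_of_subsingleton
    omega
  choose χ hχ using hn
  have hb : InvS ρ ⊥ := by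
    intro g w hw
    rw [Submodule.mem_bot] at hw ⊢
    rw [hw, map_zero]
  have ht' : InvS ρ ⊤ := fun g w _ => Submodule.mem_top
  obtain ⟨v, -, hv0, hv⟩ := N_UNI_eig ρ hT χ hχ ⊥ ⊤ hb ht' bot_lt_top
  rw [Submodule.mem_bot] at hv0
  have hv1 : ∀ g, ρ g v = χ g • v := fun g => by
    have h := hv g
    rw [Submodule.mem_bot, sub_eq_zero] at h
    exact h
  have hcan : ∀ a b : K, a • v = b • v → a = b := fun a b h => by
    rw [← sub_eq_zero, ← sub_smul, smul_eq_zero] at h
    rcases h with h | h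
    · exact sub_eq_zero.1 h
    · exact absurd h hv0
  have hm : ∀ g h, χ (g * h) = χ g * χ h := by
    intro g h
    refine hcan _ _ ?_
    rw [← hv1, map_mul, Module.End.mul_apply, hv1, map_smul, hv1, smul_smul, mul_comm]
  have h1 : χ 1 = 1 := by
    refine hcan _ _ ?_
    rw [← hv1, map_one, one_smul]
    rfl
  have h0 : ∀ g, χ g ≠ 0 := by
    intro g h
    have h2 := hm g g⁻¹
    rw [mul_inv_cancel, h1, h, zero_mul] at h2
    exact one_ne_zero h2
  have hc : ∀ g h, χ (h * g * h⁻¹) = χ g := by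
    intro g h
    have h2 := hm h h⁻¹
    rw [mul_inv_cancel, h1] at h2
    rw [hm, hm, mul_comm (χ h), mul_assoc, ← h2, mul_one]
  obtain ⟨h3, h4⟩ := N_UNI_lcs ρ χ hm h0 h1 hc k t ht
  have h5 : LinearMap.range (ρ t - 1) ≤ N_UNI_A ρ χ (k + 1) := by
    rintro x ⟨w, rfl⟩
    have h6 := h4 0 w Submodule.mem_top
    rw [h3 hk, one_smul, Nat.zero_add] at h6
    exact h6
  exact (Submodule.finrank_mono h5).trans (N_UNI_dim ρ hT χ hχ hc (k + 1))

end Pool.Agent.PR
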