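import Pool.Agent.helper5.PR.SpecX

/-!
# Project pr: module X-DEC (decomposition)
-/

set_option autoImplicit false

namespace Pool.Agent.PR

open Matrix

/-- residual finiteness with normal subgroups -/
theorem X_DEC_rf {Λ : Type} [Group Λ] (h : RF Λ) (x : Λ)
    (hx : ∀ M : FiniteIndexNormalSubgroup Λ, x ∈ M.toSubgroup) : x = 1 := by
  by_contra hne
  obtain ⟨H, hi, hH⟩ := h x hne
  have : H.FiniteIndex := ⟨hi⟩
  have h1 := hx ({ toSubgroup := H.normalCore, isNormal' := inferInstance,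
                   isFiniteIndex' := inferInstance } : FiniteIndexNormalSubgroup Λ)
  exact hH (H.normalCore_le h1)

/-- congruence to one, in terms of divisibility -/
theorem X_DEC_red {n : ℕ} (k : ℕ) (γ : SLZ n) :
    redZ n k γ = 1 ↔ ∀ i j, (k : ℤ) ∣ (γ : Matrix (Fin n) (Fin n) ℤ) i j -
      (1 : Matrix (Fin n) (Fin n) ℤ) i j := by
  have h1 : ∀ i j, (redZ n k γ : Matrix (Fin n) (Fin n) (ZMod k)) i j =
      (((γ : Matrix (Fin n) (Fin n) ℤ) i j : ℤ) : ZMod k) := fun i j => rfl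
  have h2 : ∀ i j, (1 : Matrix (Fin n) (Fin n) (ZMod k)) i j =
      (((1 : Matrix (Fin n) (Fin n) ℤ) i j : ℤ) : ZMod k) := by
    intro i j
    rw [Matrix.one_apply, Matrix.one_apply]
    split_ifs <;> simp
  have h3 : ∀ i j, ((redZ n k γ : Matrix (Fin n) (Fin n) (ZMod k)) i j =
      (1 : Matrix (Fin n) (Fin n) (ZMod k)) i j) ↔
      (k : ℤ) ∣ (γ : Matrix (Fin n) (Fin n) ℤ) i j - (1 : Matrix (Fin n) (Fin n) ℤ) i j := by
    intro i j
    rw [h1, h2, ← ZMod.intCast_zmod_eq_zero_iff_dvd, Int.cast_sub, sub_eq_zero]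
  constructor
  · intro h i j
    rw [← h3, h]
    rfl
  · intro h
    apply Subtype.ext
    ext i j
    exact (h3 i j).mpr (h i j)

theorem X_DEC_red_dvd {n : ℕ} {j k : ℕ} (hjk : j ∣ k) {γ : SLZ n} (h : redZ n k γ = 1) :
    redZ n j γ = 1 := by
  rw [X_DEC_red] at h ⊢
  intro a b
  exact dvd_trans (Int.natCast_dvd_natCast.mpr hjk) (h a b)

theorem X_DEC_cg1 {n m : ℕ} (k : ℕ) : CgI k (1 : SLI n m) := by
  intro i j
  refine ⟨0, ?_⟩
  have : ratM (1 : SLI n m) = 1 := by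
    ext a b
    change (((1 : Matrix (Fin n) (Fin n) (ZI m)) a b : ZI m) : ℚ) = _
    rw [Matrix.one_apply, Matrix.one_apply]
    split_ifs <;> simp
  rw [this]
  simp

/-- the elements which are `≡ 1` modulo `d` -/
def X_DEC_sub {n : ℕ} {Λ : Type} [Group Λ] (S : Sys (SLZ n) Λ) (d : ℕ) : Subgroup Λ where
  carrier := {l | ∀ M : FiniteIndexNormalSubgroup Λ, ∃ γ : SLZ n,
    S.g M γ = (l : Λ ⧸ M.toSubgroup) ∧ redZ n d γ = 1}
  one_mem' := fun M => ⟨1, by rw [map_one]; rfl, map_one _⟩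
  mul_mem' := by
    intro a b ha hb M
    obtain ⟨x, hx, hx'⟩ := ha M
    obtain ⟨y, hy, hy'⟩ := hb M
    exact ⟨x * y, by rw [map_mul, hx, hy]; rfl, by rw [map_mul, hx', hy', one_mul]⟩
  inv_mem' := by
    intro a ha M
    obtain ⟨x, hx, hx'⟩ := ha M
    exact ⟨x⁻¹, by rw [map_inv, hx]; rfl, by rw [map_inv, hx', inv_one]⟩

theorem X_DEC_zero (hSAND : S_SAND_stmt) {n : ℕ} (hn : 3 ≤ n) {Λ : Type} [Group Λ]
    (S : Sys (SLZ n) Λ) (M : FiniteIndexNormalSubgroup Λ) {j d : ℕ} (hjd : j.Coprime d)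
    (hl : lev hn S M ∣ j * d) {γ : SLZ n} (h1 : redZ n j γ = 1) (h2 : redZ n d γ = 1) :
    S.g M γ = 1 := by
  apply (hSAND n hn (Λ ⧸ M.toSubgroup) (S.g M)).1
  intro a b
  rw [X_DEC_red] at h1 h2
  have h3 : ((j * d : ℕ) : ℤ) ∣ (γ : Matrix (Fin n) (Fin n) ℤ) a b -
      (1 : Matrix (Fin n) (Fin n) ℤ) a b := by
    push_cast
    exact IsCoprime.mul_dvd (Nat.isCoprime_iff_coprime.mpr hjd) (h1 a b) (h2 a b)
  exact dvd_trans (Int.natCast_dvd_natCast.mpr hl) h3

theorem X_DEC (hCSI : X_CSI_stmt) (hCRT : X_CRT_stmt) (hRED : X_RED_stmt)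
    (hSAND : S_SAND_stmt) : X_DEC_stmt := by
  intro n hn Λ _ hRF m hm R hR hfin S d hLev H1 H2
  obtain ⟨hd1, hdm, hlev, -⟩ := hLev
  have hcop : ∀ j : ℕ, j.Coprime m → j.Coprime d := by
    intro j hj
    rw [Nat.coprime_iff_gcd_eq_one]
    by_contra hg
    obtain ⟨q, hq, hqd⟩ := Nat.exists_prime_and_dvd hg
    have h1 : q ∣ m := hdm q hq (dvd_trans hqd (Nat.gcd_dvd_right _ _))
    have h2 : q ∣ j := dvd_trans hqd (Nat.gcd_dvd_left _ _)
    have h3 : q ∣ Nat.gcd j m := Nat.dvd_gcd h2 h1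
    rw [Nat.coprime_iff_gcd_eq_one.mp hj] at h3
    exact hq.one_lt.ne' (Nat.dvd_one.mp h3)
  -- kernel elements are congruent to one prime to `m`
  have hker : ∀ f : Λ, R f = 1 → ∀ (M : FiniteIndexNormalSubgroup Λ) (k : ℕ), 1 ≤ k →
      k.Coprime m → ∃ γ : SLZ n, S.g M γ = (f : Λ ⧸ M.toSubgroup) ∧ redZ n k γ = 1 := by
    intro f hf M k hk hkm
    obtain ⟨γ, h1, h2⟩ := H1 f M k hk hkm
    refine ⟨γ, h1, h2.mp ?_⟩
    rw [hf]
    exact X_DEC_cg1 k
  -- (1) the two subgroups commute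
  have hcomm : ∀ a ∈ X_DEC_sub S d, ∀ f, R f = 1 → a * f = f * a := by
    intro a ha f hf
    have h0 : a * f * a⁻¹ * f⁻¹ = 1 := by
      apply X_DEC_rf hRF
      intro M
      obtain ⟨j, hj1, hjm, hjl⟩ := hlev M
      obtain ⟨x, hx, hx'⟩ := ha M
      obtain ⟨y, hy, hy'⟩ := hker f hf M j hj1 hjm
      have h1 : S.g M (x * y * x⁻¹ * y⁻¹) = 1 := by
        apply X_DEC_zero hSAND hn S M (hcop j hjm) hjl
        · rw [map_mul, map_mul, map_mul, map_inv, map_inv, hy']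
          group
        · rw [map_mul, map_mul, map_mul, map_inv, map_inv, hx']
          group
      rw [map_mul, map_mul, map_mul, map_inv, map_inv, hx, hy] at h1
      have h2 : ((a * f * a⁻¹ * f⁻¹ : Λ) : Λ ⧸ M.toSubgroup) = 1 := h1
      exact (QuotientGroup.eq_one_iff _).mp h2
    have h1 : a * f * a⁻¹ * f⁻¹ * (f * a) = f * a := by rw [h0, one_mul]
    rw [← h1]
    group
  -- (2) trivial intersection
  have hinj : ∀ x ∈ X_DEC_sub S d, R x = 1 → x = 1 := by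
    intro x hx hRx
    apply X_DEC_rf hRF
    intro M
    obtain ⟨j, hj1, hjm, hjl⟩ := hlev M
    obtain ⟨r, -, hr⟩ := hRED n m j hm hj1 hjm
    have : NeZero j := ⟨by omega⟩
    have hfi : ((r.comp R).ker).FiniteIndex := by
      have : Finite (r.comp R).range := inferInstance
      exact inferInstance
    obtain ⟨M', hM'⟩ : ∃ M' : FiniteIndexNormalSubgroup Λ,
        M'.toSubgroup = M.toSubgroup ⊓ (r.comp R).ker :=
      ⟨{ toSubgroup := M.toSubgroup ⊓ (r.comp R).ker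
         isNormal' := inferInstance
         isFiniteIndex' := inferInstance }, rfl⟩
    have hle : M' ≤ M := by
      intro y hy
      have : y ∈ M'.toSubgroup := hy
      rw [hM'] at this
      exact this.1
    obtain ⟨γ, hγ, hγ'⟩ := hx M'
    obtain ⟨δ, hδ, hδ'⟩ := hker x hRx M' j hj1 hjm
    obtain ⟨l, hl, hl'⟩ := H2 (γ * δ⁻¹) M' j hj1 hjm
    have h1 : ((l : Λ) : Λ ⧸ M'.toSubgroup) = 1 := by
      rw [← hl, map_mul, map_inv, hγ, hδ, mul_inv_cancel]
    have h2 : l ∈ M'.toSubgroup := (QuotientGroup.eq_one_iff _).mp h1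
    rw [hM'] at h2
    have h3 : CgI j (R l) := (hr (R l)).mp (MonoidHom.mem_ker.mp h2.2)
    have h4 := hl'.mp h3
    rw [map_mul, map_inv, hδ', inv_one, mul_one] at h4
    have h5 := X_DEC_zero hSAND hn S M (hcop j hjm) hjl h4 hγ'
    have h6 := S.compat M' M hle γ x hγ
    rw [h5] at h6
    exact (QuotientGroup.eq_one_iff _).mp h6.symm
  -- (3) the product is everything
  have hprod : ∀ x : Λ, ∃ f, R f = 1 ∧ x * f⁻¹ ∈ X_DEC_sub S d := by
    intro x
    have hT : ∀ M : FiniteIndexNormalSubgroup Λ, ∃ f : R.ker, ∃ γ : SLZ n,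
        S.g M γ = ((x * (f : Λ)⁻¹ : Λ) : Λ ⧸ M.toSubgroup) ∧ redZ n d γ = 1 := by
      intro M
      have hnorm : (M.toSubgroup.map R).Normal := Subgroup.Normal.map inferInstance R hR
      have hfi : (M.toSubgroup.map R).FiniteIndex := by
        refine ⟨fun h0 => ?_⟩
        have h1 := Subgroup.index_map_dvd M.toSubgroup hR
        rw [h0, zero_dvd_iff] at h1
        exact M.isFiniteIndex'.index_ne_zero h1
      obtain ⟨k, hk1, hkm, hk, -⟩ := hCSI n hn m hm (SLI n m ⧸ M.toSubgroup.map R)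
        (QuotientGroup.mk' (M.toSubgroup.map R))
      obtain ⟨γ₀, hγ₀⟩ := S.surj M (x : Λ ⧸ M.toSubgroup)
      obtain ⟨γ₁, h1, h2⟩ := hCRT n k d hk1 hd1 (hcop k hkm) 1 γ₀
      rw [map_one] at h1
      obtain ⟨l, hl, hl'⟩ := H2 γ₁ M k hk1 hkm
      have h3 : R l ∈ M.toSubgroup.map R := by
        have := hk (R l) (hl'.mpr h1)
        exact (QuotientGroup.eq_one_iff _).mp this
      obtain ⟨m', hm', hm''⟩ := h3
      have hf : R (l * m'⁻¹) = 1 := by rw [map_mul, map_inv, hm'', mul_inv_cancel]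
      have h4 : ((m' : Λ) : Λ ⧸ M.toSubgroup) = 1 := (QuotientGroup.eq_one_iff _).mpr hm'
      have h5 : ((l * m'⁻¹ : Λ) : Λ ⧸ M.toSubgroup) = S.g M γ₁ := by
        rw [hl, QuotientGroup.mk_mul, QuotientGroup.mk_inv, h4, inv_one, mul_one]
      refine ⟨⟨l * m'⁻¹, MonoidHom.mem_ker.mpr hf⟩, γ₀ * γ₁⁻¹, ?_, ?_⟩
      · rw [map_mul, map_inv, hγ₀, QuotientGroup.mk_mul, QuotientGroup.mk_inv]
        simp only
        rw [h5]
      · rw [map_mul, map_inv, h2, mul_inv_cancel]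
    by_contra hcon
    push Not at hcon
    have hbad : ∀ f : R.ker, ∃ M : FiniteIndexNormalSubgroup Λ, ∀ γ : SLZ n,
        S.g M γ = ((x * (f : Λ)⁻¹ : Λ) : Λ ⧸ M.toSubgroup) → redZ n d γ ≠ 1 := by
      intro f
      have h1 := hcon f (MonoidHom.mem_ker.mp f.2)
      by_contra h2
      push Not at h2
      apply h1
      intro M
      exact h2 M
    choose Mf hMf using hbad
    have : Fintype R.ker := Fintype.ofFinite _
    obtain ⟨M₀, hM₀⟩ : ∃ M₀ : FiniteIndexNormalSubgroup Λ, M₀.toSubgroup =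
        ⨅ f : R.ker, (Mf f).toSubgroup := by
      refine ⟨{ toSubgroup := ⨅ f : R.ker, (Mf f).toSubgroup
                isNormal' := ?_
                isFiniteIndex' := ?_ }, rfl⟩
      · exact Subgroup.normal_iInf_normal fun f => (Mf f).isNormal'
      · exact Subgroup.finiteIndex_iInf fun f => (Mf f).isFiniteIndex'
    have hle : ∀ f, M₀ ≤ Mf f := by
      intro f y hy
      have : y ∈ M₀.toSubgroup := hy
      rw [hM₀] at this
      exact (iInf_le (fun f : R.ker => (Mf f).toSubgroup) f) this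
    obtain ⟨f, γ, hγ, hγ'⟩ := hT M₀
    exact hMf f γ (S.compat M₀ (Mf f) (hle f) γ _ hγ) hγ'
  -- the section
  have hbij : Function.Bijective (R.comp (X_DEC_sub S d).subtype) := by
    constructor
    · rw [injective_iff_map_eq_one]
      intro a ha
      exact Subtype.ext (hinj a a.2 ha)
    · intro y
      obtain ⟨x, hx⟩ := hR y
      obtain ⟨f, hf, hxf⟩ := hprod x
      refine ⟨⟨x * f⁻¹, hxf⟩, ?_⟩
      change R (x * f⁻¹) = y
      rw [map_mul, map_inv, hf, inv_one, mul_one, hx]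
  obtain ⟨e, he⟩ : ∃ e : X_DEC_sub S d ≃* SLI n m, ∀ a, e a = R (a : Λ) :=
    ⟨MulEquiv.ofBijective (R.comp (X_DEC_sub S d).subtype) hbij, fun a => rfl⟩
  refine ⟨(X_DEC_sub S d).subtype.comp e.symm.toMonoidHom, fun y => ?_, fun y f hf => ?_⟩
  · have := he (e.symm y)
    rw [e.apply_symm_apply] at this
    exact this.symm
  · exact hcomm _ (e.symm y).2 f (MonoidHom.mem_ker.mp hf)

end Pool.Agent.PR
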