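import Pool.Agent.helper5.PR.SpecY
import Pool.Agent.helper29.PR.X_CNL

/-!
# pr:Y-CNL
-/

set_option autoImplicit false

namespace Pool.Agent.PR

open Matrix

theorem Y_CNL_transfer {P Q : Type} [Group P] [Group Q] (e : P ≃* Q) (k : ℕ) (h : NonEmb k P) :
    NonEmb k Q := by
  obtain ⟨h1, h2, h3, h4⟩ := h
  refine ⟨?_, ?_, ?_, ?_⟩
  · have := h1
    exact Group.fg_of_surjective (f := e.toMonoidHom) e.surjective
  · have := h2
    exact Group.nilpotent_of_mulEquiv e
  · intro g hg k hk hgk
    apply h3 (e.symm g) (by simpa using hg) k hk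
    rw [← map_pow, hgk, map_one]
  · intro H hH E _ _ f hf
    have hfi : (H.comap e.toMonoidHom).FiniteIndex := by
      refine ⟨?_⟩
      rw [Subgroup.index_comap_of_surjective H e.surjective]
      exact hH.index_ne_zero
    refine h4 (H.comap e.toMonoidHom) hfi E (f.comp (e.toMonoidHom.subgroupComap H)) ?_
    rw [MonoidHom.coe_comp]
    refine hf.comp ?_
    intro a b hab
    have h5 : e.toMonoidHom (a : P) = e.toMonoidHom (b : P) := congrArg Subtype.val hab
    exact Subtype.ext (e.injective h5)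

theorem Y_CNL (hUNI : Y_UNI_stmt) : Y_CNL_stmt := by
  intro n hn m d _ _ L _ Φ _ hker
  obtain ⟨P, hP, hPc⟩ := hUNI n hn
  let f : SLZ n →* L := Φ.comp ((incI n m).prod (1 : SLZ n →* SLd n d))
  have hinj : Function.Injective (f.comp P.subtype) := by
    rw [injective_iff_map_eq_one]
    intro g hg
    have h1 : (incI n m (g : SLZ n), (1 : SLd n d)) ∈ Φ.ker := hg
    have h2 := hker h1
    rw [Subgroup.mem_center_iff] at h2
    have h3 : (g : SLZ n) ∈ Subgroup.center (SLZ n) := by
      rw [Subgroup.mem_center_iff]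
      intro x
      apply X_CNL_inj n m
      have h4 := congrArg Prod.fst (h2 (incI n m x, 1))
      rw [map_mul, map_mul]
      exact h4
    have h5 : (g : SLZ n) ∈ P ⊓ Subgroup.center (SLZ n) := ⟨g.2, h3⟩
    rw [hPc, Subgroup.mem_bot] at h5
    exact Subtype.ext h5
  exact ⟨(f.comp P.subtype).range, Y_CNL_transfer (MonoidHom.ofInjective hinj) _ hP⟩

end Pool.Agent.PR
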